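import Mathlib
import Pool.Agent.Lib.MP_50ef00_gt.NegC

/-!
# MP_50ef00_gt, module NC2: reduction of the graph
-/

namespace Pool.Agent.Lib.MP_50ef00_gt.H66

open H65 Matrix

/-! ### the cells of the graph -/

/-- the odd cells of the graph -/
def fO : (Fin 4 ⊕ Unit) ⊕ (Fin 4 ⊕ Fin 4) → Cell
  | Sum.inl (Sum.inl g) => some {0, 2 * (g : ℕ) + 2}
  | Sum.inl (Sum.inr _) => none
  | Sum.inr (Sum.inl g) => some {0, 2 * (g : ℕ) + 1}
  | Sum.inr (Sum.inr g) => some {2 * (g : ℕ) + 1, 2 * (g : ℕ) + 2}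

/-- the vertices of the graph -/
def fV : Unit ⊕ (Fin 4 ⊕ Fin 4) → Cell
  | Sum.inl _ => some {0}
  | Sum.inr (Sum.inl g) => some {2 * (g : ℕ) + 1}
  | Sum.inr (Sum.inr g) => some {2 * (g : ℕ) + 2}

theorem odd_eq : oddCells graph = Finset.univ.image fO := by decide +kernel
theorem even_eq : evenCells graph = Finset.univ.image fV := by decide +kernel
theorem fO_inj : Function.Injective fO := by decide +kernel
theorem fV_inj : Function.Injective fV := by decide +kernel
theorem v0_mem : ({0} : Finset ℕ) ∈ graph := by decide +kernel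
theorem v1_mem : ∀ g : Fin 4, ({2 * (g : ℕ) + 1} : Finset ℕ) ∈ graph := by decide +kernel
theorem v2_mem : ∀ g : Fin 4, ({2 * (g : ℕ) + 2} : Finset ℕ) ∈ graph := by decide +kernel
theorem e1_mem : ∀ g : Fin 4, ({0, 2 * (g : ℕ) + 1} : Finset ℕ) ∈ graph := by decide +kernel
theorem e2_mem : ∀ g : Fin 4, ({0, 2 * (g : ℕ) + 2} : Finset ℕ) ∈ graph := by decide +kernel
theorem e3_mem : ∀ g : Fin 4, ({2 * (g : ℕ) + 1, 2 * (g : ℕ) + 2} : Finset ℕ) ∈ graph := by
  decide +kernel

/-- the even cells: `v₀`, `z i`, the other vertices -/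
def fE (z : Fin 4 → Cell) : (Unit ⊕ Fin 4) ⊕ (Fin 4 ⊕ Fin 4) → Cell
  | Sum.inl (Sum.inl _) => some {0}
  | Sum.inl (Sum.inr i) => z i
  | Sum.inr (Sum.inl g) => some {2 * (g : ℕ) + 1}
  | Sum.inr (Sum.inr g) => some {2 * (g : ℕ) + 2}

theorem fO_mem (y : (Fin 4 ⊕ Unit) ⊕ (Fin 4 ⊕ Fin 4)) : fO y ∈ oddCells graph := by
  rw [odd_eq]
  exact Finset.mem_image_of_mem _ (Finset.mem_univ _)

/-- enumeration of the odd cells -/
noncomputable def eO : (Fin 4 ⊕ Unit) ⊕ (Fin 4 ⊕ Fin 4) ≃ {x // x ∈ oddCells graph} :=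
  Equiv.ofBijective (fun y => ⟨fO y, fO_mem y⟩) (by
    constructor
    · intro x y h
      exact fO_inj (Subtype.ext_iff.1 h)
    · rintro ⟨x, hx⟩
      have hx' := hx
      rw [odd_eq] at hx'
      obtain ⟨y, -, rfl⟩ := Finset.mem_image.1 hx'
      exact ⟨y, rfl⟩)

theorem eO_apply (y : (Fin 4 ⊕ Unit) ⊕ (Fin 4 ⊕ Fin 4)) : (eO y : Cell) = fO y := rfl

theorem fE_vertex (z : Fin 4 → Cell) (v : Unit ⊕ (Fin 4 ⊕ Fin 4)) :
    fE z (Sum.elim (fun u => Sum.inl (Sum.inl u)) Sum.inr v) = fV v := by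
  rcases v with u | g | g <;> rfl

theorem fE_mem (z : Fin 4 → Cell) (x : (Unit ⊕ Fin 4) ⊕ (Fin 4 ⊕ Fin 4)) :
    fE z x ∈ Finset.univ.image z ∪ evenCells graph := by
  rw [Finset.mem_union]
  have h : ∀ v, fV v ∈ evenCells graph := by
    intro v
    rw [even_eq]
    exact Finset.mem_image_of_mem _ (Finset.mem_univ _)
  rcases x with (u | i) | g | g
  · exact Or.inr (h (Sum.inl u))
  · exact Or.inl (Finset.mem_image_of_mem _ (Finset.mem_univ _))
  · exact Or.inr (h (Sum.inr (Sum.inl g)))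
  · exact Or.inr (h (Sum.inr (Sum.inr g)))

theorem fE_inj (z : Fin 4 → Cell) (hz : Function.Injective z)
    (hn : ∀ i, ∀ s ∈ graph, z i ≠ some s) : Function.Injective (fE z) := by
  have hV : ∀ i v, z i ≠ fV v := by
    intro i v
    rcases v with u | g | g
    · exact hn i _ v0_mem
    · exact hn i _ (v1_mem g)
    · exact hn i _ (v2_mem g)
  rintro ((u | i) | g | g) ((u' | i') | g' | g') h
  · rfl
  · exact absurd h.symm (hV i' (Sum.inl u))
  · exact absurd (fV_inj (a₁ := Sum.inl u) (a₂ := Sum.inr (Sum.inl g')) h) (by simp)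
  · exact absurd (fV_inj (a₁ := Sum.inl u) (a₂ := Sum.inr (Sum.inr g')) h) (by simp)
  · exact absurd h (hV i (Sum.inl u'))
  · rw [hz h]
  · exact absurd h (hV i (Sum.inr (Sum.inl g')))
  · exact absurd h (hV i (Sum.inr (Sum.inr g')))
  · exact absurd (fV_inj (a₁ := Sum.inr (Sum.inl g)) (a₂ := Sum.inl u') h) (by simp)
  · exact absurd h.symm (hV i' (Sum.inr (Sum.inl g)))
  · have := fV_inj (a₁ := Sum.inr (Sum.inl g)) (a₂ := Sum.inr (Sum.inl g')) h
    simp only [Sum.inr.injEq, Sum.inl.injEq] at this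
    rw [this]
  · exact absurd (fV_inj (a₁ := Sum.inr (Sum.inl g)) (a₂ := Sum.inr (Sum.inr g')) h) (by simp)
  · exact absurd (fV_inj (a₁ := Sum.inr (Sum.inr g)) (a₂ := Sum.inl u') h) (by simp)
  · exact absurd h.symm (hV i' (Sum.inr (Sum.inr g)))
  · exact absurd (fV_inj (a₁ := Sum.inr (Sum.inr g)) (a₂ := Sum.inr (Sum.inl g')) h) (by simp)
  · have := fV_inj (a₁ := Sum.inr (Sum.inr g)) (a₂ := Sum.inr (Sum.inr g')) h
    simp only [Sum.inr.injEq] at this
    rw [this]

/-- enumeration of the even cells -/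
noncomputable def eE (z : Fin 4 → Cell) (hz : Function.Injective z)
    (hn : ∀ i, ∀ s ∈ graph, z i ≠ some s) :
    (Unit ⊕ Fin 4) ⊕ (Fin 4 ⊕ Fin 4) ≃ {x // x ∈ Finset.univ.image z ∪ evenCells graph} :=
  Equiv.ofBijective (fun y => ⟨fE z y, fE_mem z y⟩) (by
    constructor
    · intro x y h
      exact fE_inj z hz hn (Subtype.ext_iff.1 h)
    · rintro ⟨x, hx⟩
      rcases Finset.mem_union.1 hx with hx' | hx'
      · obtain ⟨i, -, rfl⟩ := Finset.mem_image.1 hx'
        exact ⟨Sum.inl (Sum.inr i), rfl⟩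
      · rw [even_eq] at hx'
        obtain ⟨v, -, rfl⟩ := Finset.mem_image.1 hx'
        refine ⟨Sum.elim (fun u => Sum.inl (Sum.inl u)) Sum.inr v, ?_⟩
        exact Subtype.ext (fE_vertex z v))

/-! ### entries of the boundary matrix -/

theorem pair_eq_pair {a b c d : ℕ} :
    ({a, b} : Finset ℕ) = {c, d} ↔ (a = c ∧ b = d) ∨ (a = d ∧ b = c) := by
  rw [← Finset.coe_inj]
  simp [Set.pair_eq_pair_iff]

theorem Dg_vertex (A : ℕ → ℕ → G2) (v : ℕ) (x : Cell) (hx : x ≠ some ∅) :
    Dg A x (some {v}) = 0 := by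
  rcases x with _ | s
  · simp [Dg, ar]
  · have : (∅ : Finset ℕ) ≠ s := by
      rintro rfl
      exact hx rfl
    simp [Dg, this]

theorem Dg_edge (A : ℕ → ℕ → G2) (u v w : ℕ) (huw : u < w) (hu : A u u = 1) :
    Dg A (some {v}) (some {u, w}) = if v = w then rho (A u w) else if v = u then -1 else 0 := by
  have h1 : ({u, w} : Finset ℕ).erase u = {w} := by
    ext x; simp only [Finset.mem_erase, Finset.mem_insert, Finset.mem_singleton]; omega
  have h2 : ({u, w} : Finset ℕ).erase w = {u} := by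
    ext x; simp only [Finset.mem_erase, Finset.mem_insert, Finset.mem_singleton]; omega
  have s1 : sgn {u, w} u = 1 := by
    have : ({u, w} : Finset ℕ).filter (· < u) = ∅ := by
      rw [Finset.filter_eq_empty_iff]
      intro x hx
      simp only [Finset.mem_insert, Finset.mem_singleton] at hx
      omega
    simp [sgn, this]
  have s2 : sgn {u, w} w = -1 := by
    have : ({u, w} : Finset ℕ).filter (· < w) = {u} := by
      ext x
      simp only [Finset.mem_filter, Finset.mem_insert, Finset.mem_singleton]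
      omega
    simp [sgn, this]
  simp only [Dg]
  rw [Finset.sum_pair (by omega), h1, h2, s1, s2, mn_pair huw, mn_singleton]
  by_cases hv : v = w
  · subst hv
    rw [if_pos rfl, if_pos rfl, if_neg]
    · ring
    · simpa using (ne_of_lt huw)
  · rw [if_neg hv, if_neg]
    · by_cases hv' : v = u
      · subst hv'
        simp [hu]
      · rw [if_neg hv', if_neg]
        · ring
        · simpa using Ne.symm hv'
    · simpa using Ne.symm hv

/-! ### the matrices -/

section mats
variable (A : ℕ → ℕ → G2)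

/-- holonomy of the first edge -/
noncomputable def a1 (g : Fin 4) : ℂ := rho (A 0 (2 * g + 1))
/-- holonomy of the second edge -/
noncomputable def a2 (g : Fin 4) : ℂ := rho (A (2 * g + 1) (2 * g + 2))
/-- holonomy of the third edge, reversed -/
noncomputable def a3 (g : Fin 4) : ℂ := rho (A 0 (2 * g + 2))

/-- base change -/
noncomputable def H11 : Matrix (Fin 4 ⊕ Unit) (Fin 4 ⊕ Unit) ℂ :=
  fromBlocks (diagonal fun g => -rho (lhol A g)) 0 (Matrix.of fun _ g => loopc A g none) 1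

/-- base change -/
noncomputable def H21 : Matrix (Fin 4 ⊕ Fin 4) (Fin 4 ⊕ Unit) ℂ :=
  fromBlocks 1 0 (diagonal fun g => a1 A g) 0

/-- base change -/
noncomputable def HH : Matrix ((Fin 4 ⊕ Unit) ⊕ (Fin 4 ⊕ Fin 4)) ((Fin 4 ⊕ Unit) ⊕ (Fin 4 ⊕ Fin 4)) ℂ :=
  fromBlocks (H11 A) 0 (H21 A) 1

/-- block of the boundary matrix -/
noncomputable def P11 : Matrix (Unit ⊕ Fin 4) (Fin 4 ⊕ Unit) ℂ :=
  fromBlocks (Matrix.of fun _ _ => -1) 0 0 0

/-- block of the boundary matrix -/
noncomputable def P21 : Matrix (Fin 4 ⊕ Fin 4) (Fin 4 ⊕ Unit) ℂ :=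
  fromBlocks 0 0 (diagonal fun g => a3 A g) 0

/-- block of the boundary matrix -/
noncomputable def X1 : Matrix (Unit ⊕ Fin 4) (Fin 4 ⊕ Fin 4) ℂ :=
  fromBlocks (Matrix.of fun _ _ => -1) 0 0 0

/-- block of the boundary matrix -/
noncomputable def T2 : Matrix (Fin 4 ⊕ Fin 4) (Fin 4 ⊕ Fin 4) ℂ :=
  fromBlocks (diagonal fun g => a1 A g) (-1) 0 (diagonal fun g => a2 A g)

theorem norm_HH : ‖(HH A).det‖ = 1 := by
  rw [HH, det_fromBlocks_zero₁₂, H11, det_fromBlocks_zero₁₂, det_one, det_one, det_diagonal]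
  simp [norm_prod, norm_rho]

theorem norm_T2 : ‖(T2 A).det‖ = 1 := by
  rw [T2, det_fromBlocks_zero₂₁, det_diagonal, det_diagonal]
  simp [norm_prod, a1, a2, norm_rho]

end mats

/-- an invertible square matrix with determinant of modulus one has torsion one -/
theorem isTors_square {n : Type*} [Fintype n] [DecidableEq n] (T : Matrix n n ℂ)
    (hT : ‖T.det‖ = 1) : IsTors T (0 : Matrix n n ℂ) 1 := by
  have hu : IsUnit T.det := by
    rw [isUnit_iff_ne_zero]
    intro h
    rw [h, norm_zero] at hT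
    exact zero_ne_one hT
  refine ⟨by simp, by simp, 0, T⁻¹, ⟨?_, ?_, by simp, by simp⟩, ?_⟩
  · rw [mul_nonsing_inv _ hu]; simp
  · rw [nonsing_inv_mul _ hu]; simp
  · rw [add_zero, det_mul, det_conjTranspose]
    have := Complex.conj_mul' T.det
    rw [hT] at this
    simpa using this

theorem isTors_square_iff {α β γ : Type*} [Fintype α] [DecidableEq α] [Fintype β] [DecidableEq β]
    [Fintype γ] [DecidableEq γ] {D₁ : Matrix α β ℂ} {D₀ : Matrix β α ℂ} {r : ℂ}
    {X : Matrix α γ ℂ} {T : Matrix γ γ ℂ} (hT : ‖T.det‖ = 1) (hx : D₀ * X = 0) :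
    IsTors (fromBlocks D₁ X 0 T) (fromBlocks D₀ 0 0 0) r ↔ IsTors D₁ D₀ r := by
  have h2 := isTors_square T hT
  constructor
  · intro h
    have := h.of_block h2
    simpa using this
  · intro h
    have := h.block h2 (X₁ := X) (X₀ := 0) (by simp) (by simp [hx])
    simpa using this

/-! ### the loop chains -/

theorem loopc_none_eq (A : ℕ → ℕ → G2) (g : Fin 4) (y : (Fin 4 ⊕ Unit) ⊕ (Fin 4 ⊕ Fin 4)) :
    loopc A g (fO y) = HH A y (Sum.inl (Sum.inl g)) := by
  rcases y with (g' | u) | g' | g'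
  · simp only [fO, loopc, ed, HH, H11, fromBlocks_apply₁₁, diagonal_apply, pair_eq_pair]
    rw [if_neg (by omega), if_neg (by omega), zero_add, zero_add]
    by_cases h : g' = g
    · subst h
      simp [lhol]
    · have h' : (g' : ℕ) ≠ g := fun h' => h (Fin.ext h')
      rw [if_neg (by omega), if_neg h]
  · rfl
  · simp only [fO, loopc, ed, HH, H21, fromBlocks_apply₂₁, fromBlocks_apply₁₁, one_apply,
      pair_eq_pair]
    rw [if_neg (c := (0 = 2 * (g : ℕ) + 1 ∧ 2 * (g' : ℕ) + 1 = 2 * (g : ℕ) + 2) ∨ _) (by omega),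
      if_neg (c := (0 = 2 * (g : ℕ) + 2 ∧ 2 * (g' : ℕ) + 1 = 0) ∨ _) (by omega), add_zero, add_zero]
    by_cases h : g' = g
    · subst h
      simp
    · have h' : (g' : ℕ) ≠ g := fun h' => h (Fin.ext h')
      rw [if_neg (by omega), if_neg h]
  · simp only [fO, loopc, ed, HH, H21, fromBlocks_apply₂₁, diagonal_apply,
      pair_eq_pair]
    rw [if_neg (c := (2 * (g' : ℕ) + 1 = 0 ∧ 2 * (g' : ℕ) + 2 = 2 * (g : ℕ) + 1) ∨ _) (by omega),
      if_neg (c := (2 * (g' : ℕ) + 1 = 2 * (g : ℕ) + 2 ∧ 2 * (g' : ℕ) + 2 = 0) ∨ _) (by omega),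
      add_zero, zero_add]
    by_cases h : g' = g
    · subst h
      simp [a1]
    · have h' : (g' : ℕ) ≠ g := fun h' => h (Fin.ext h')
      rw [if_neg (by omega), if_neg h]

/-! ### the two matrices of the complex -/

section entries
variable {A : ℕ → ℕ → G2} {z : Fin 4 → Cell} {D : Cell → Cell → ℂ}

theorem D1_eq (hA : IsCocycle graph A) (hV : VCells graph graph A (Finset.univ.image z) D)
    (x : (Unit ⊕ Fin 4) ⊕ (Fin 4 ⊕ Fin 4)) (y : (Fin 4 ⊕ Unit) ⊕ (Fin 4 ⊕ Fin 4)) :
    D (fE z x) (fO y) = fromBlocks P11 X1 (P21 A) (T2 A) x y := by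
  have hz : ∀ i, ∀ y, D (z i) (fO y) = 0 := fun i y =>
    hV.row _ (Finset.mem_image_of_mem _ (Finset.mem_univ _)) _ (fO_mem y)
  have h0 : A 0 0 = 1 := hA.self v0_mem
  have h1 : ∀ g : Fin 4, A (2 * (g : ℕ) + 1) (2 * (g : ℕ) + 1) = 1 := fun g => hA.self (v1_mem g)
  have k1 : ∀ (v : ℕ) (g : Fin 4), D (some {v}) (some {0, 2 * (g : ℕ) + 1}) =
      if v = 2 * (g : ℕ) + 1 then a1 A g else if v = 0 then -1 else 0 := by
    intro v g
    rw [hV.col _ (e1_mem g), Dg_edge A _ _ _ (by omega) h0]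
    rfl
  have k2 : ∀ (v : ℕ) (g : Fin 4), D (some {v}) (some {0, 2 * (g : ℕ) + 2}) =
      if v = 2 * (g : ℕ) + 2 then a3 A g else if v = 0 then -1 else 0 := by
    intro v g
    rw [hV.col _ (e2_mem g), Dg_edge A _ _ _ (by omega) h0]
    rfl
  have k3 : ∀ (v : ℕ) (g : Fin 4), D (some {v}) (some {2 * (g : ℕ) + 1, 2 * (g : ℕ) + 2}) =
      if v = 2 * (g : ℕ) + 2 then a2 A g else if v = 2 * (g : ℕ) + 1 then -1 else 0 := by
    intro v g
    rw [hV.col _ (e3_mem g), Dg_edge A _ _ _ (by omega) (h1 g)]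
    rfl
  rcases x with (u | i) | g | g
  · rcases y with (g' | u') | g' | g'
    · simp only [fE, fO, k2, fromBlocks_apply₁₁, P11]
      rw [if_neg (by omega)]
      simp
    · simp only [fE, fO, hV.colnone, fromBlocks_apply₁₁, P11]
      rfl
    · simp only [fE, fO, k1, fromBlocks_apply₁₂, fromBlocks_apply₁₁, X1]
      rw [if_neg (by omega)]
      simp
    · simp only [fE, fO, k3, fromBlocks_apply₁₂, X1]
      rw [if_neg (by omega), if_neg (by omega)]
      rfl
  · rw [show fE z (Sum.inl (Sum.inr i)) = z i from rfl, hz]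
    rcases y with (g' | u') | g' | g' <;> rfl
  · rcases y with (g' | u') | g' | g'
    · simp only [fE, fO, k2, fromBlocks_apply₂₁, P21]
      rw [if_neg (by omega), if_neg (by omega)]
      rfl
    · simp only [fE, fO, hV.colnone, fromBlocks_apply₂₁, P21]
      rfl
    · simp only [fE, fO, k1, fromBlocks_apply₂₂, fromBlocks_apply₁₁, T2, diagonal_apply]
      by_cases h : g = g'
      · subst h
        rw [if_pos rfl, if_pos rfl]
      · have h' : (g : ℕ) ≠ g' := fun h' => h (Fin.ext h')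
        rw [if_neg (by omega), if_neg (by omega), if_neg h]
    · simp only [fE, fO, k3, fromBlocks_apply₂₂, fromBlocks_apply₁₂, T2, Matrix.neg_apply, Matrix.one_apply]
      by_cases h : g = g'
      · subst h
        rw [if_neg (by omega), if_pos rfl, if_pos rfl]
      · have h' : (g : ℕ) ≠ g' := fun h' => h (Fin.ext h')
        rw [if_neg (by omega), if_neg (by omega), if_neg h, neg_zero]
  · rcases y with (g' | u') | g' | g'
    · simp only [fE, fO, k2, fromBlocks_apply₂₁, P21, diagonal_apply]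
      by_cases h : g = g'
      · subst h
        rw [if_pos rfl, if_pos rfl]
      · have h' : (g : ℕ) ≠ g' := fun h' => h (Fin.ext h')
        rw [if_neg (by omega), if_neg (by omega), if_neg h]
    · simp only [fE, fO, hV.colnone, fromBlocks_apply₂₁, P21]
      rfl
    · simp only [fE, fO, k1, fromBlocks_apply₂₂, fromBlocks_apply₂₁, T2]
      rw [if_neg (by omega), if_neg (by omega)]
      rfl
    · simp only [fE, fO, k3, fromBlocks_apply₂₂, T2, diagonal_apply]
      by_cases h : g = g'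
      · subst h
        rw [if_pos rfl, if_pos rfl]
      · have h' : (g : ℕ) ≠ g' := fun h' => h (Fin.ext h')
        rw [if_neg (by omega), if_neg (by omega), if_neg h]

theorem D0_eq (hV : VCells graph graph A (Finset.univ.image z) D)
    (F : Fin 4 → Fin 4 → ℂ) (Q : Fin 4 → ℂ)
    (hD : ∀ i x, D x (z i) = ∑ g, F i g * loopc A g x + Q i * (if x = none then 1 else 0)) :
    Matrix.of (fun y x => D (fO y) (fE z x)) =
      HH A * fromBlocks (smallF F Q) 0 0 (0 : Matrix (Fin 4 ⊕ Fin 4) (Fin 4 ⊕ Fin 4) ℂ) := by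
  have hv : ∀ v y, ({v} : Finset ℕ) ∈ graph → D (fO y) (some {v}) = 0 := by
    intro v y hvg
    rw [hV.col _ hvg, Dg_vertex]
    intro h
    have := fO_mem y
    rw [h] at this
    revert this
    decide +kernel
  have hcol0 : ∀ (y : (Fin 4 ⊕ Unit) ⊕ (Fin 4 ⊕ Fin 4)) (i : Fin 4),
      (HH A * fromBlocks (smallF F Q) 0 0 (0 : Matrix (Fin 4 ⊕ Fin 4) (Fin 4 ⊕ Fin 4) ℂ)) y
        (Sum.inl (Sum.inr i)) =
        ∑ g, F i g * HH A y (Sum.inl (Sum.inl g)) + Q i * HH A y (Sum.inl (Sum.inr ())) := by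
    intro y i
    rw [Matrix.mul_apply, Fintype.sum_sum_type, Fintype.sum_sum_type]
    simp only [fromBlocks_apply₁₁, fromBlocks_apply₂₁, smallF, Matrix.of_apply, Matrix.zero_apply,
      mul_zero, Finset.sum_const_zero, add_zero, Finset.univ_unique, Finset.sum_singleton]
    congr 1
    · exact Finset.sum_congr rfl fun g _ => mul_comm _ _
    · exact mul_comm _ _
  have hnone : ∀ y : (Fin 4 ⊕ Unit) ⊕ (Fin 4 ⊕ Fin 4),
      HH A y (Sum.inl (Sum.inr ())) = if fO y = none then 1 else 0 := by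
    intro y
    rcases y with (g' | u) | g' | g'
    · simp [HH, H11, fO]
    · simp [HH, H11, fO]
    · simp [HH, H21, fO]
    · simp [HH, H21, fO]
  ext y x
  rcases x with (u | i) | g | g
  · rw [Matrix.of_apply]
    rw [show fE z (Sum.inl (Sum.inl u)) = some {0} from rfl, hv 0 y v0_mem, Matrix.mul_apply,
      Fintype.sum_sum_type]
    symm
    simp only [fromBlocks_apply₁₁, fromBlocks_apply₂₁, Matrix.zero_apply,
      mul_zero, Finset.sum_const_zero, add_zero]
    refine Finset.sum_eq_zero fun w _ => ?_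
    rcases w with w | w
    · simp [smallF]
    · simp [smallF]
  · rw [Matrix.of_apply, hcol0, hnone]
    rw [show fE z (Sum.inl (Sum.inr i)) = z i from rfl, hD]
    simp only [loopc_none_eq]
  · rw [Matrix.of_apply]
    rw [show fE z (Sum.inr (Sum.inl g)) = some {2 * (g : ℕ) + 1} from rfl, hv _ y (v1_mem g),
      Matrix.mul_apply, Fintype.sum_sum_type]
    simp
  · rw [Matrix.of_apply]
    rw [show fE z (Sum.inr (Sum.inr g)) = some {2 * (g : ℕ) + 2} from rfl, hv _ y (v2_mem g),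
      Matrix.mul_apply, Fintype.sum_sum_type]
    simp

/-- the boundary of the loops -/
theorem D1_mul (hA : IsCocycle graph A) :
    fromBlocks P11 X1 (P21 A) (T2 A) * HH A =
      fromBlocks (small1 (lhol A)) X1 0 (T2 A) := by
  have hloop : ∀ g : Fin 4, rho (lhol A g) * a3 A g = a1 A g * a2 A g := by
    intro g
    have h0 : A 0 0 = 1 := hA.self v0_mem
    have h2 : A (2 * (g : ℕ) + 2) (2 * (g : ℕ) + 2) = 1 := hA.self (v2_mem g)
    have h3 : A (2 * (g : ℕ) + 2) 0 * A 0 (2 * (g : ℕ) + 2) = 1 := by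
      have := hA (2 * (g : ℕ) + 2) 0 (2 * (g : ℕ) + 2) (by
        have e : ({2 * (g : ℕ) + 2, 0, 2 * (g : ℕ) + 2} : Finset ℕ) = {0, 2 * (g : ℕ) + 2} := by
          ext x; simp only [Finset.mem_insert, Finset.mem_singleton]; omega
        rw [e]
        exact e2_mem g)
      rw [this, h2]
    unfold lhol a1 a2 a3
    rw [← rho_mul, ← rho_mul]
    congr 1
    rw [mul_assoc, h3, mul_one]
  rw [HH, fromBlocks_multiply]
  congr 1
  · ext x y
    rcases x with u | i <;> rcases y with g | u'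
    · simp [P11, X1, H11, H21, small1, fromBlocks_multiply, Matrix.mul_apply, diagonal_apply]
      ring
    · simp [P11, X1, H11, H21, small1, fromBlocks_multiply]
    · simp [P11, X1, H11, H21, small1, fromBlocks_multiply]
    · simp [P11, X1, H11, H21, small1, fromBlocks_multiply]
  · simp
  · rw [P21, T2, H11, H21, fromBlocks_multiply, fromBlocks_multiply, fromBlocks_add,
      ← fromBlocks_zero]
    congr 1
    · simp
    · simp
    · simp only [Matrix.zero_mul, add_zero, zero_add, diagonal_mul_diagonal]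
      ext i j
      simp only [Matrix.add_apply, diagonal_apply, Matrix.zero_apply]
      split_ifs
      · have := hloop i
        linear_combination (-1 : ℂ) * this
      · ring
    · simp
  · simp

end entries

/-- Module NC2. -/
theorem nc2 : NC2Statement := by
  intro A z D F Q r hA hz hV hD
  have hn : ∀ i, ∀ s ∈ graph, z i ≠ some s := fun i s hs =>
    (hV.notMem _ (Finset.mem_image_of_mem _ (Finset.mem_univ _))).2 s hs
  unfold IsTorsOn
  rw [← isTors_reindex_iff (eE z hz hn) eO]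
  have e1 : (res (Finset.univ.image z ∪ evenCells graph) (oddCells graph) D).submatrix
      (eE z hz hn) eO = fromBlocks P11 X1 (P21 A) (T2 A) := by
    ext x y
    exact D1_eq hA hV x y
  have e0 : (res (oddCells graph) (Finset.univ.image z ∪ evenCells graph) D).submatrix
      eO (eE z hz hn) =
      HH A * fromBlocks (smallF F Q) 0 0 (0 : Matrix (Fin 4 ⊕ Fin 4) (Fin 4 ⊕ Fin 4) ℂ) := by
    rw [← D0_eq hV F Q hD]
    rfl
  rw [e1, e0]
  have hu : IsUnit (HH A).det := by
    rw [isUnit_iff_ne_zero]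
    intro h
    have := norm_HH A
    rw [h, norm_zero] at this
    exact zero_ne_one this
  rw [isTors_base_change_iff (G := 1) (G' := 1) (H := HH A) (H' := (HH A)⁻¹) (by simp) (by simp)
    (mul_nonsing_inv _ hu) (nonsing_inv_mul _ hu) (by simp) (norm_HH A)
    (E₁ := fromBlocks (small1 (lhol A)) X1 0 (T2 A))
    (E₀ := fromBlocks (smallF F Q) 0 0 0)
    (by rw [D1_mul hA, Matrix.one_mul]) (by rw [Matrix.mul_one])]
  refine isTors_square_iff (norm_T2 A) ?_
  ext x y
  rw [Matrix.mul_apply]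
  rcases x with g | u <;> rcases y with g' | g' <;>
    simp [X1, smallF]

end Pool.Agent.Lib.MP_50ef00_gt.H66
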